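import Mathlib
import Pool.Agent.H805K.UpperCmp

/-!
# Local facts about twice differentiable functions on `ℂⁿ`

Cutoffs, the second derivative test for the Levi form and the submean value inequality on circles.
-/

set_option autoImplicit false

open MeasureTheory Metric Set Filter Topology
open scoped ContDiff ComplexOrder

namespace Q74.MAF

open Pool.Agent.H805R2 Pool.Agent.H805K

variable {n : ℕ}

/-- Extension of a `C²` function from a ball to the whole space, after shrinking the ball. -/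
lemma exists_global {f : Cn n → ℝ} {z : Cn n} {r R : ℝ} (hr : 0 < r) (hR : r < R)
    (hf : ContDiffOn ℝ 2 f (ball z R)) :
    ∃ g : Cn n → ℝ, ContDiff ℝ 2 g ∧ ∀ x ∈ closedBall z r, g x = f x := by
  obtain ⟨χ, hχ1, hχ2⟩ : ∃ χ : ContDiffBump z, χ.rIn = r ∧ χ.rOut = (r + R) / 2 :=
    ⟨⟨r, (r + R) / 2, hr, by linarith⟩, rfl, rfl⟩
  refine ⟨fun x => χ x * f x, ?_, ?_⟩
  · rw [contDiff_iff_contDiffAt]
    intro x
    by_cases hx : x ∈ ball z R
    · exact χ.contDiff.contDiffAt.mul (hf.contDiffAt (isOpen_ball.mem_nhds hx))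
    · have h1 : x ∉ tsupport χ := by
        rw [χ.tsupport_eq, hχ2, mem_closedBall]
        rw [mem_ball] at hx
        push Not at hx ⊢
        linarith
      have h2 : (fun x => χ x * f x) =ᶠ[𝓝 x] fun _ => 0 := by
        filter_upwards [(isClosed_tsupport χ).isOpen_compl.mem_nhds h1] with y hy
        rw [image_eq_zero_of_notMem_tsupport hy, zero_mul]
      exact contDiffAt_const.congr_of_eventuallyEq h2
  · intro x hx
    show χ x * f x = f x
    rw [χ.one_of_mem_closedBall (by rw [hχ1]; exact hx), one_mul]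

lemma levi_congr {f g : Cn n → ℝ} {z : Cn n} (h : f =ᶠ[𝓝 z] g) (ζ : Cn n) :
    levi f z ζ = levi g z ζ := by
  have h1 : fderiv ℝ (fderiv ℝ f) z = fderiv ℝ (fderiv ℝ g) z := h.fderiv.fderiv_eq
  unfold levi Pool.Agent.H805R2.D2
  rw [h1]

lemma hess_congr {f g : Cn n → ℝ} {z : Cn n} (h : f =ᶠ[𝓝 z] g) : hess f z = hess g z := by
  have h0 : (fun w => ((f w : ℝ) : ℂ)) =ᶠ[𝓝 z] fun w => ((g w : ℝ) : ℂ) := by
    filter_upwards [h] with y hy
    rw [hy]
  ext j k
  unfold hess
  rw [Matrix.of_apply, Matrix.of_apply]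
  have h1 : (wdb k fun w => ((f w : ℝ) : ℂ)) =ᶠ[𝓝 z] wdb k fun w => ((g w : ℝ) : ℂ) := by
    filter_upwards [h0.fderiv (𝕜 := ℝ)] with y hy
    unfold wdb
    rw [hy]
  unfold wd
  rw [h1.fderiv_eq]

/-- the eventual equality coming from `exists_global` -/
lemma eventually_of_closedBall {f g : Cn n → ℝ} {z : Cn n} {r : ℝ}
    (h : ∀ x ∈ closedBall z r, g x = f x) {x : Cn n} (hx : x ∈ ball z r) : g =ᶠ[𝓝 x] f := by
  filter_upwards [isOpen_ball.mem_nhds hx] with y hy
  exact h y (ball_subset_closedBall hy)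

/-- Second derivative test for the Levi form. -/
lemma levi_nonpos_loc {F : Cn n → ℝ} {y : Cn n} {R : ℝ} (hR : 0 < R)
    (hF : ContDiffOn ℝ 2 F (ball y R)) (h : IsLocalMax F y) (ζ : Cn n) : levi F y ζ ≤ 0 := by
  obtain ⟨g, hg, hgF⟩ := exists_global (half_pos hR) (half_lt_self hR) hF
  have he := eventually_of_closedBall hgF (mem_ball_self (half_pos hR))
  rw [← levi_congr he ζ]
  apply Up.levi_nonpos hg
  filter_upwards [he, h] with x hx hx'
  rw [hx, he.self_of_nhds]
  exact hx'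

lemma levi_sub_loc {f g : Cn n → ℝ} {y : Cn n} {R : ℝ} (hR : 0 < R)
    (hf : ContDiffOn ℝ 2 f (ball y R)) (hg : ContDiffOn ℝ 2 g (ball y R)) (ζ : Cn n) :
    levi (fun x => f x - g x) y ζ = levi f y ζ - levi g y ζ := by
  obtain ⟨f1, hf1, hf2⟩ := exists_global (half_pos hR) (half_lt_self hR) hf
  obtain ⟨g1, hg1, hg2⟩ := exists_global (half_pos hR) (half_lt_self hR) hg
  have ef := eventually_of_closedBall hf2 (mem_ball_self (half_pos hR))
  have eg := eventually_of_closedBall hg2 (mem_ball_self (half_pos hR))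
  have efg : (fun x => f1 x - g1 x) =ᶠ[𝓝 y] fun x => f x - g x := by
    filter_upwards [ef, eg] with x h1 h2
    rw [h1, h2]
  rw [← levi_congr ef ζ, ← levi_congr eg ζ, ← levi_congr efg ζ, levi_sub hf1 hg1]

/-- The Levi form as the quadratic form of the complex Hessian, locally. -/
lemma levi_eq_qf_loc {f : Cn n → ℝ} {y : Cn n} {R : ℝ} (hR : 0 < R)
    (hf : ContDiffOn ℝ 2 f (ball y R)) (ζ : Cn n) :
    (levi f y ζ : ℂ) = star (fun j => star (ζ j)) ⬝ᵥ ((hess f y).mulVec (fun k => star (ζ k))) := by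
  obtain ⟨f1, hf1, hf2⟩ := exists_global (half_pos hR) (half_lt_self hR) hf
  have ef := eventually_of_closedBall hf2 (mem_ball_self (half_pos hR))
  rw [← levi_congr ef ζ, ← hess_congr ef, levi_eq_qf hf1]

/-! ### The submean value inequality -/

private theorem cav_swap {F : ℝ → ℝ → ℝ} (hF : Continuous (Function.uncurry F)) (a b c d : ℝ) :
    ∫ x in a..b, ∫ y in c..d, F x y = ∫ y in c..d, ∫ x in a..b, F x y := by
  apply intervalIntegral_intervalIntegral_swap
  refine (hF.continuousOn.integrableOn_compact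
    ((isCompact_uIcc (a := a) (b := b)).prod (isCompact_uIcc (a := c) (b := d)))).mono_set ?_
  exact Set.prod_mono uIoc_subset_uIcc uIoc_subset_uIcc

/-- the rotating vector -/
private noncomputable def rT (τ : Cn n) (θ : ℝ) : Cn n := Complex.exp (θ * Complex.I) • τ

private theorem rT_hasDerivAt (τ : Cn n) (θ : ℝ) :
    HasDerivAt (rT τ) (Complex.I • rT τ θ) θ := by
  have h1 : HasDerivAt (fun θ : ℝ => Complex.exp (θ * Complex.I))
      (Complex.exp (θ * Complex.I) * Complex.I) θ := by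
    have h2 : HasDerivAt (fun θ : ℝ => (θ : ℂ) * Complex.I) (1 * Complex.I) θ :=
      (Complex.ofRealCLM.hasDerivAt (x := θ)).mul_const Complex.I
    rw [one_mul] at h2
    exact h2.cexp
  have h3 := h1.smul_const τ
  unfold rT
  rw [smul_smul, mul_comm Complex.I]
  exact h3

private theorem rT_cont (τ : Cn n) : Continuous (rT τ) := by
  unfold rT
  fun_prop

/-- the second derivative as a bilinear map -/
private noncomputable def DD (f : Cn n → ℝ) (z : Cn n) : Cn n →L[ℝ] Cn n →L[ℝ] ℝ :=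
  fderiv ℝ (fderiv ℝ f) z

/-- The submean value inequality on a circle, for a globally `C²` function whose Levi form is
nonnegative on the disc. -/
theorem le_cav_glob (u : Cn n → ℝ) (hu : ContDiff ℝ 2 u) (τ z : Cn n)
    (hl : ∀ x, ‖x - z‖ ≤ ‖τ‖ → ∀ ξ, 0 ≤ levi u x ξ) :
    2 * Real.pi * u z ≤ ∫ θ in (0:ℝ)..(2 * Real.pi), u (z + Complex.exp (θ * Complex.I) • τ) := by
  have hT := rT_cont τ
  have hnT : ∀ θ, ‖rT τ θ‖ = ‖τ‖ := by
    intro θ
    unfold rT
    rw [norm_smul, Complex.norm_exp_ofReal_mul_I, one_mul]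
  have hu1 : Differentiable ℝ u := hu.differentiable (by norm_num)
  have hdu : ContDiff ℝ 1 (fderiv ℝ u) := hu.fderiv_right (by norm_num)
  have hdu1 : Differentiable ℝ (fderiv ℝ u) := hdu.differentiable (by norm_num)
  have hc0 : Continuous u := hu.continuous
  have hc1 : Continuous (fderiv ℝ u) := hdu.continuous
  have hc2 : Continuous (DD u) := hdu.continuous_fderiv (by norm_num)
  have hpi : (0 : ℝ) < 2 * Real.pi := by positivity
  have hpr : ∀ r θ : ℝ, HasDerivAt (fun r : ℝ => z + r • rT τ θ) (rT τ θ) r := by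
    intro r θ
    have := ((hasDerivAt_id r).smul_const (rT τ θ)).const_add z
    simpa using this
  have hpθ : ∀ r θ : ℝ, HasDerivAt (fun θ : ℝ => z + r • rT τ θ) (r • Complex.I • rT τ θ) θ := by
    intro r θ
    exact ((rT_hasDerivAt τ θ).const_smul r).const_add z
  -- derivative in the radial direction
  have hgr : ∀ r θ : ℝ, HasDerivAt (fun r : ℝ => u (z + r • rT τ θ))
      (fderiv ℝ u (z + r • rT τ θ) (rT τ θ)) r := by
    intro r θ
    exact (hu1 _).hasFDerivAt.comp_hasDerivAt r (hpr r θ)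
  have hdr : ∀ r θ : ℝ, HasDerivAt (fun r : ℝ => fderiv ℝ u (z + r • rT τ θ))
      (DD u (z + r • rT τ θ) (rT τ θ)) r := by
    intro r θ
    exact (hdu1 _).hasFDerivAt.comp_hasDerivAt r (hpr r θ)
  have hdθ : ∀ r θ : ℝ, HasDerivAt (fun θ : ℝ => fderiv ℝ u (z + r • rT τ θ))
      (DD u (z + r • rT τ θ) (r • Complex.I • rT τ θ)) θ := by
    intro r θ
    exact (hdu1 _).hasFDerivAt.comp_hasDerivAt θ (hpθ r θ)
  have hhr : ∀ r θ : ℝ, HasDerivAt (fun r : ℝ => fderiv ℝ u (z + r • rT τ θ) (r • rT τ θ))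
      (DD u (z + r • rT τ θ) (rT τ θ) (r • rT τ θ) + fderiv ℝ u (z + r • rT τ θ) (rT τ θ)) r := by
    intro r θ
    have h1 : HasDerivAt (fun r : ℝ => r • rT τ θ) (rT τ θ) r := by
      have := (hasDerivAt_id r).smul_const (rT τ θ)
      simpa using this
    exact (hdr r θ).clm_apply h1
  have hgθθ : ∀ r θ : ℝ, HasDerivAt
      (fun θ : ℝ => fderiv ℝ u (z + r • rT τ θ) (r • Complex.I • rT τ θ))
      (DD u (z + r • rT τ θ) (r • Complex.I • rT τ θ) (r • Complex.I • rT τ θ) +
        fderiv ℝ u (z + r • rT τ θ) (r • Complex.I • Complex.I • rT τ θ)) θ := by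
    intro r θ
    have h1 : HasDerivAt (fun θ : ℝ => r • Complex.I • rT τ θ) (r • Complex.I • Complex.I • rT τ θ)
        θ := ((rT_hasDerivAt τ θ).const_smul Complex.I).const_smul r
    exact (hdθ r θ).clm_apply h1
  -- pointwise inequality
  have hpt : ∀ r θ : ℝ, 0 ≤ r → r ≤ 1 → 0 ≤ r * (DD u (z + r • rT τ θ) (rT τ θ) (r • rT τ θ) +
      fderiv ℝ u (z + r • rT τ θ) (rT τ θ)) +
      (DD u (z + r • rT τ θ) (r • Complex.I • rT τ θ) (r • Complex.I • rT τ θ) +
        fderiv ℝ u (z + r • rT τ θ) (r • Complex.I • Complex.I • rT τ θ)) := by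
    intro r θ hr0 hr1
    have h0 : ‖z + r • rT τ θ - z‖ ≤ ‖τ‖ := by
      rw [add_sub_cancel_left, norm_smul, hnT, Real.norm_eq_abs, abs_of_nonneg hr0]
      nlinarith [norm_nonneg τ]
    have h1 := hl (z + r • rT τ θ) h0 (r • rT τ θ)
    unfold levi Pool.Agent.H805R2.D2 at h1
    have e1 : Complex.I • (r • rT τ θ) = r • Complex.I • rT τ θ := smul_comm _ _ _
    have e2 : r • Complex.I • Complex.I • rT τ θ = -(r • rT τ θ) := by
      rw [smul_smul Complex.I Complex.I, Complex.I_mul_I, neg_one_smul, smul_neg]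
    rw [e1] at h1
    rw [e2, map_neg]
    have e3 : DD u (z + r • rT τ θ) (r • rT τ θ) (r • rT τ θ) =
        r * DD u (z + r • rT τ θ) (rT τ θ) (r • rT τ θ) := by
      rw [map_smul (DD u (z + r • rT τ θ)) r (rT τ θ)]
      rfl
    have e4 : fderiv ℝ u (z + r • rT τ θ) (r • rT τ θ) =
        r * fderiv ℝ u (z + r • rT τ θ) (rT τ θ) := by
      rw [map_smul]
      rfl
    change 0 ≤ (DD u (z + r • rT τ θ) (r • rT τ θ) (r • rT τ θ) +
      DD u (z + r • rT τ θ) (r • Complex.I • rT τ θ) (r • Complex.I • rT τ θ)) / 4 at h1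
    rw [e3] at h1
    rw [e4]
    linarith
  have hper : rT τ (2 * Real.pi) = rT τ 0 := by
    unfold rT
    congr 1
    push_cast
    rw [Complex.exp_two_pi_mul_I]
    simp
  -- continuity
  have hcont1 : Continuous (Function.uncurry fun θ r : ℝ =>
      DD u (z + r • rT τ θ) (rT τ θ) (r • rT τ θ) + fderiv ℝ u (z + r • rT τ θ) (rT τ θ)) := by
    unfold Function.uncurry
    fun_prop
  have hcont2 : Continuous (Function.uncurry fun θ r : ℝ =>
      fderiv ℝ u (z + r • rT τ θ) (rT τ θ)) := by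
    unfold Function.uncurry
    fun_prop
  have hcont3 : ∀ r : ℝ, Continuous (fun θ : ℝ =>
      DD u (z + r • rT τ θ) (r • Complex.I • rT τ θ) (r • Complex.I • rT τ θ) +
        fderiv ℝ u (z + r • rT τ θ) (r • Complex.I • Complex.I • rT τ θ)) := by
    intro r
    fun_prop
  -- (1)
  have hJ : ∀ r : ℝ, 0 < r → r ≤ 1 → 0 ≤ ∫ θ in (0:ℝ)..(2 * Real.pi),
      (DD u (z + r • rT τ θ) (rT τ θ) (r • rT τ θ) + fderiv ℝ u (z + r • rT τ θ) (rT τ θ)) := by
    intro r hr hr1
    have hc : Continuous (fun θ : ℝ => DD u (z + r • rT τ θ) (rT τ θ) (r • rT τ θ) +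
        fderiv ℝ u (z + r • rT τ θ) (rT τ θ)) := by fun_prop
    have h1 : 0 ≤ ∫ θ in (0:ℝ)..(2 * Real.pi), (r * (DD u (z + r • rT τ θ) (rT τ θ) (r • rT τ θ) +
      fderiv ℝ u (z + r • rT τ θ) (rT τ θ)) +
      (DD u (z + r • rT τ θ) (r • Complex.I • rT τ θ) (r • Complex.I • rT τ θ) +
        fderiv ℝ u (z + r • rT τ θ) (r • Complex.I • Complex.I • rT τ θ))) :=
      intervalIntegral.integral_nonneg hpi.le fun θ _ => hpt r θ hr.le hr1
    rw [intervalIntegral.integral_add ((hc.const_mul r).intervalIntegrable _ _)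
      ((hcont3 r).intervalIntegrable _ _), intervalIntegral.integral_const_mul,
      intervalIntegral.integral_eq_sub_of_hasDerivAt (fun θ _ => hgθθ r θ)
        ((hcont3 r).intervalIntegrable _ _), hper, sub_self, add_zero] at h1
    exact nonneg_of_mul_nonneg_right h1 hr
  -- (2)
  have hH : ∀ r : ℝ, 0 ≤ r → r ≤ 1 → 0 ≤ ∫ θ in (0:ℝ)..(2 * Real.pi),
      fderiv ℝ u (z + r • rT τ θ) (r • rT τ θ) := by
    intro r hr hr1
    have h1 : ∀ θ : ℝ, fderiv ℝ u (z + r • rT τ θ) (r • rT τ θ) = ∫ s in (0:ℝ)..r,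
        (DD u (z + s • rT τ θ) (rT τ θ) (s • rT τ θ) + fderiv ℝ u (z + s • rT τ θ) (rT τ θ)) := by
      intro θ
      have hc : Continuous (fun s : ℝ => DD u (z + s • rT τ θ) (rT τ θ) (s • rT τ θ) +
        fderiv ℝ u (z + s • rT τ θ) (rT τ θ)) := by fun_prop
      rw [intervalIntegral.integral_eq_sub_of_hasDerivAt (fun s _ => hhr s θ)
        (hc.intervalIntegrable _ _)]
      simp
    simp_rw [h1]
    rw [cav_swap hcont1, intervalIntegral.integral_of_le hr]
    exact setIntegral_nonneg measurableSet_Ioc fun s hs => hJ s hs.1 (hs.2.trans hr1)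
  -- (3)
  have hK : ∀ r : ℝ, 0 < r → r ≤ 1 → 0 ≤ ∫ θ in (0:ℝ)..(2 * Real.pi),
      fderiv ℝ u (z + r • rT τ θ) (rT τ θ) := by
    intro r hr hr1
    have h1 := hH r hr.le hr1
    have h2 : ∀ θ : ℝ, fderiv ℝ u (z + r • rT τ θ) (r • rT τ θ) =
        r * fderiv ℝ u (z + r • rT τ θ) (rT τ θ) := by
      intro θ
      rw [map_smul]
      rfl
    simp_rw [h2] at h1
    rw [intervalIntegral.integral_const_mul] at h1
    exact nonneg_of_mul_nonneg_right h1 hr
  have hM : 0 ≤ ∫ θ in (0:ℝ)..(2 * Real.pi), (u (z + (1 : ℝ) • rT τ θ) - u z) := by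
    have h1 : ∀ θ : ℝ, u (z + (1 : ℝ) • rT τ θ) - u z =
        ∫ r in (0:ℝ)..1, fderiv ℝ u (z + r • rT τ θ) (rT τ θ) := by
      intro θ
      have hc : Continuous (fun s : ℝ => fderiv ℝ u (z + s • rT τ θ) (rT τ θ)) := by fun_prop
      rw [intervalIntegral.integral_eq_sub_of_hasDerivAt (fun s _ => hgr s θ)
        (hc.intervalIntegrable _ _)]
      simp
    simp_rw [h1]
    rw [cav_swap hcont2, intervalIntegral.integral_of_le zero_le_one]
    exact setIntegral_nonneg measurableSet_Ioc fun s hs => hK s hs.1 hs.2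
  have hcu : Continuous (fun θ : ℝ => u (z + rT τ θ)) := by fun_prop
  simp only [one_smul] at hM
  rw [intervalIntegral.integral_sub (hcu.intervalIntegrable _ _)
    (continuous_const.intervalIntegrable _ _), intervalIntegral.integral_const, sub_zero,
    smul_eq_mul] at hM
  have e5 : ∫ θ in (0:ℝ)..(2 * Real.pi), u (z + Complex.exp (θ * Complex.I) • τ) =
      ∫ θ in (0:ℝ)..(2 * Real.pi), u (z + rT τ θ) := rfl
  rw [e5]
  linarith

/-- The submean value inequality on a circle in a ball where the Levi form is nonnegative. -/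
theorem le_cav (u : Cn n → ℝ) (z τ : Cn n) {R : ℝ} (hτ : ‖τ‖ < R)
    (hu : ContDiffOn ℝ 2 u (ball z R)) (hl : ∀ x ∈ ball z R, ∀ ξ, 0 ≤ levi u x ξ) :
    2 * Real.pi * u z ≤ ∫ θ in (0:ℝ)..(2 * Real.pi), u (z + Complex.exp (θ * Complex.I) • τ) := by
  have hn := norm_nonneg τ
  obtain ⟨g, hg, hgu⟩ := exists_global (r := (‖τ‖ + R) / 2) (by linarith) (by linarith) hu
  have h1 := le_cav_glob g hg τ z (fun x hx ξ => by
    have hx' : x ∈ ball z ((‖τ‖ + R) / 2) := by
      rw [mem_ball, dist_eq_norm]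
      linarith
    rw [levi_congr (eventually_of_closedBall hgu hx') ξ]
    exact hl x (ball_subset_ball (by linarith) hx') ξ)
  have h2 : ∀ θ : ℝ, g (z + Complex.exp (θ * Complex.I) • τ) =
      u (z + Complex.exp (θ * Complex.I) • τ) := by
    intro θ
    apply hgu
    rw [mem_closedBall, dist_eq_norm, add_sub_cancel_left, norm_smul,
      Complex.norm_exp_ofReal_mul_I, one_mul]
    linarith
  rw [hgu z (mem_closedBall_self (by linarith))] at h1
  simp_rw [h2] at h1
  exact h1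

end Q74.MAF
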