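import Mathlib
import Pool.Agent.Q74.MAF.Local
import Pool.Agent.H805K.Calc
import Pool.Agent.H805R2.Mat

/-!
# The barrier for the complex Monge-Ampère flow
-/

set_option autoImplicit false

open MeasureTheory Metric Set Filter Topology Matrix
open scoped ContDiff ComplexOrder

namespace Q74.MAF

open Pool.Agent.H805R2 Pool.Agent.H805K

variable {n : ℕ}

/-- the Hermitian product `∑ \bar z_j ζ_j` -/
noncomputable def hp (z ζ : Cn n) : ℂ := ∑ j, star (z j) * ζ j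

lemma inner_re (z ζ : Cn n) : inner ℝ z ζ = (hp z ζ).re := by
  rw [PiLp.inner_apply, hp, Complex.re_sum]
  apply Finset.sum_congr rfl
  intro j _
  rw [Complex.inner, mul_comm]
  rfl

lemma hp_I (z ζ : Cn n) : hp z (Complex.I • ζ) = Complex.I * hp z ζ := by
  rw [hp, hp, Finset.mul_sum]
  apply Finset.sum_congr rfl
  intro j _
  rw [PiLp.smul_apply, smul_eq_mul]
  ring

/-- `‖z‖² + ε²` -/
noncomputable def NN (ε : ℝ) (z : Cn n) : ℝ := ‖z‖ ^ 2 + ε ^ 2

lemma NN_smooth (ε : ℝ) : ContDiff ℝ ∞ (NN (n := n) ε) :=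
  (contDiff_norm_sq ℝ).add contDiff_const

lemma NN_pos {ε : ℝ} (hε : 0 < ε) (z : Cn n) : 0 < NN ε z := by
  unfold NN
  positivity

lemma NN_fderiv (ε : ℝ) (z v : Cn n) : fderiv ℝ (NN ε) z v = 2 * inner ℝ z v := by
  have h1 : HasFDerivAt (NN ε) (2 • (innerSL ℝ z)) z :=
    (hasStrictFDerivAt_norm_sq z).hasFDerivAt.add_const (ε ^ 2)
  rw [h1.fderiv]
  simp

lemma NN_levi (ε : ℝ) (z ζ : Cn n) : levi (NN ε) z ζ = ‖ζ‖ ^ 2 := by
  have h1 : (NN (n := n) ε) = fun y => Up.sqd 0 y + ε ^ 2 := by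
    funext y
    rw [NN, Up.sqd, sub_zero]
  rw [h1, levi_add' (Up.sqd_smooth 0) contDiff_const, levi_const, Up.sqd_levi, add_zero]

lemma NN_dl (ε : ℝ) (z ζ : Cn n) : ‖dl (NN ε) z ζ‖ ^ 2 = ‖hp z ζ‖ ^ 2 := by
  rw [sq_dl, NN_fderiv, NN_fderiv, inner_re, inner_re, hp_I]
  rw [← Complex.normSq_eq_norm_sq, Complex.normSq_apply]
  simp
  ring

/-- the barrier -/
noncomputable def W (n : ℕ) (ε δ t : ℝ) (z : Cn n) : ℝ :=
  (1 - 2 * n * t) * (1 / 2 * Real.log (NN ε z)) + δ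

lemma W_smooth {ε : ℝ} (hε : 0 < ε) (δ t : ℝ) : ContDiff ℝ ∞ (W n ε δ t) := by
  unfold W
  exact (contDiff_const.mul (contDiff_const.mul
    ((NN_smooth ε).log fun z => (NN_pos hε z).ne'))).add contDiff_const

lemma W_levi {ε : ℝ} (hε : 0 < ε) (δ t : ℝ) (z ζ : Cn n) :
    levi (W n ε δ t) z ζ =
      (1 - 2 * n * t) / 2 * (‖ζ‖ ^ 2 / NN ε z - ‖hp z ζ‖ ^ 2 / (NN ε z) ^ 2) := by
  have hlog : ContDiff ℝ ∞ fun z : Cn n => Real.log (NN ε z) :=
    (NN_smooth ε).log fun z => (NN_pos hε z).ne'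
  unfold W
  rw [levi_add' (contDiff_const.mul (contDiff_const.mul hlog)) contDiff_const,
    levi_const, levi_const_mul' _ (contDiff_const.mul hlog), levi_const_mul' _ hlog,
    levi_log (NN_smooth ε) z ζ (NN_pos hε z), NN_levi, NN_dl]
  ring

/-- the comparison matrix -/
noncomputable def G (κ N : ℝ) (z : Cn n) : Matrix (Fin n) (Fin n) ℂ :=
  ((κ / (2 * N) : ℝ) : ℂ) •
    (1 - ((1 / N : ℝ) : ℂ) • vecMulVec (fun j => star (z j)) (fun j => z j))

lemma G_qf (κ N : ℝ) (z : Cn n) (c : Fin n → ℂ) :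
    Gram.qf (G κ N z) c = ((κ / (2 * N) * (∑ j, ‖c j‖ ^ 2 - ‖∑ j, z j * c j‖ ^ 2 / N) : ℝ) : ℂ) := by
  have h1 : star c ⬝ᵥ c = ((∑ j, ‖c j‖ ^ 2 : ℝ) : ℂ) := by
    rw [dotProduct]
    push_cast
    apply Finset.sum_congr rfl
    intro j _
    rw [Pi.star_apply, mul_comm]
    exact Complex.mul_conj' (c j)
  have h2 : vecMulVec (fun j => star (z j)) (fun j => z j) *ᵥ c =
      (∑ j, z j * c j) • fun j => star (z j) := by
    funext j
    rw [mulVec, dotProduct, Pi.smul_apply, smul_eq_mul, Finset.sum_mul]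
    apply Finset.sum_congr rfl
    intro k _
    rw [vecMulVec_apply]
    ring
  have h3 : star c ⬝ᵥ (fun j => star (z j)) = star (∑ j, z j * c j) := by
    rw [dotProduct, star_sum]
    apply Finset.sum_congr rfl
    intro j _
    rw [Pi.star_apply, star_mul']
    ring
  have h4 : (∑ j, z j * c j) * star (∑ j, z j * c j) = ((‖∑ j, z j * c j‖ ^ 2 : ℝ) : ℂ) := by
    push_cast
    exact Complex.mul_conj' _
  rw [Gram.qf, G, smul_mulVec, dotProduct_smul, sub_mulVec, one_mulVec, smul_mulVec,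
    dotProduct_sub, dotProduct_smul, h2, dotProduct_smul, h1, h3, smul_eq_mul, smul_eq_mul,
    smul_eq_mul, h4]
  push_cast
  ring

lemma cauchy (z : Cn n) (c : Fin n → ℂ) :
    ‖∑ j, z j * c j‖ ^ 2 ≤ ‖z‖ ^ 2 * ∑ j, ‖c j‖ ^ 2 := by
  have h1 : ‖∑ j, z j * c j‖ ≤ ∑ j, ‖z j‖ * ‖c j‖ := by
    refine (norm_sum_le _ _).trans (le_of_eq ?_)
    simp_rw [norm_mul]
  have h2 := Finset.sum_mul_sq_le_sq_mul_sq Finset.univ (fun j => ‖z j‖) (fun j => ‖c j‖)
  rw [EuclideanSpace.norm_sq_eq]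
  calc ‖∑ j, z j * c j‖ ^ 2 ≤ (∑ j, ‖z j‖ * ‖c j‖) ^ 2 := by gcongr
    _ ≤ _ := h2

lemma G_herm (κ N : ℝ) (z : Cn n) : (G κ N z).IsHermitian := by
  ext j k
  rw [conjTranspose_apply]
  simp only [G, Matrix.smul_apply, Matrix.sub_apply, one_apply, vecMulVec_apply, smul_eq_mul,
    star_mul', star_sub, Complex.star_def, Complex.conj_ofReal]
  by_cases h : j = k
  · subst h
    simp [mul_comm]
  · rw [if_neg h, if_neg (Ne.symm h)]
    simp [mul_comm]

lemma G_posDef {κ ε : ℝ} (hκ : 0 < κ) (hε : 0 < ε) (z : Cn n) : (G κ (NN ε z) z).PosDef := by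
  have hN := NN_pos hε z
  refine PosDef.of_dotProduct_mulVec_pos (G_herm _ _ _) ?_
  intro c hc
  have h1 : star c ⬝ᵥ (G κ (NN ε z) z *ᵥ c) = Gram.qf (G κ (NN ε z) z) c := rfl
  rw [h1, G_qf]
  have h2 : 0 < ∑ j, ‖c j‖ ^ 2 := by
    obtain ⟨j, hj⟩ := Function.ne_iff.1 hc
    exact Finset.sum_pos' (fun i _ => by positivity) ⟨j, Finset.mem_univ j, by
      have : 0 < ‖c j‖ := norm_pos_iff.2 hj
      positivity⟩
  have h3 := cauchy z c
  have h4 : 0 < κ / (2 * NN ε z) * (∑ j, ‖c j‖ ^ 2 - ‖∑ j, z j * c j‖ ^ 2 / NN ε z) := by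
    apply mul_pos (by positivity)
    rw [sub_pos, div_lt_iff₀ hN]
    have h5 : ‖z‖ ^ 2 < NN ε z := by
      unfold NN
      have : 0 < ε ^ 2 := by positivity
      linarith
    nlinarith
  exact_mod_cast h4

lemma G_det {κ ε : ℝ} (hε : 0 < ε) (z : Cn n) :
    (G κ (NN ε z) z).det = (((κ / (2 * NN ε z)) ^ n * (ε ^ 2 / NN ε z) : ℝ) : ℂ) := by
  have hN := NN_pos hε z
  have h1 : (1 - ((1 / NN ε z : ℝ) : ℂ) • vecMulVec (fun j => star (z j)) (fun j => z j) :
      Matrix (Fin n) (Fin n) ℂ).det = 1 + (fun j => z j) ⬝ᵥ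
        (fun j => -(((1 / NN ε z : ℝ) : ℂ) * star (z j))) := by
    rw [← det_one_add_replicateCol_mul_replicateRow (ι := Unit)]
    congr 1
    ext j k
    rw [Matrix.sub_apply, Matrix.add_apply, ← vecMulVec_eq, Matrix.smul_apply, vecMulVec_apply, vecMulVec_apply,
      smul_eq_mul]
    ring
  have h2 : (fun j => z j) ⬝ᵥ (fun j => -(((1 / NN ε z : ℝ) : ℂ) * star (z j))) =
      -((‖z‖ ^ 2 / NN ε z : ℝ) : ℂ) := by
    rw [dotProduct, EuclideanSpace.norm_sq_eq, Finset.sum_div]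
    push_cast
    rw [← Finset.sum_neg_distrib]
    apply Finset.sum_congr rfl
    intro j _
    have h3 : z j * star (z j) = (‖z j‖ : ℂ) ^ 2 := Complex.mul_conj' (z j)
    calc z j * -(1 / ((NN ε z : ℝ) : ℂ) * star (z j))
        = -(z j * star (z j) / ((NN ε z : ℝ) : ℂ)) := by ring
      _ = _ := by rw [h3]
  rw [G, det_smul, h1, h2, Fintype.card_fin]
  have h4 : (1 : ℂ) + -((‖z‖ ^ 2 / NN ε z : ℝ) : ℂ) = ((ε ^ 2 / NN ε z : ℝ) : ℂ) := by
    have : ε ^ 2 / NN ε z = 1 - ‖z‖ ^ 2 / NN ε z := by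
      field_simp
      unfold NN
      ring
    rw [this]
    push_cast
    ring
  rw [h4]
  push_cast
  ring

/-- If the complex Hessian of `u` is positive definite at `z` and the Levi form of `u` is at most
the one of the barrier, then the right hand side of the flow is at most the one of the barrier. -/
lemma log_det_le {u : Cn n → ℝ} {z : Cn n} {R ε δ t : ℝ} (hR : 0 < R)
    (hu : ContDiffOn ℝ 2 u (ball z R)) (hε : 0 < ε) (ht : 0 < 1 - 2 * n * t)
    (hpos : (hess u z).PosDef) (hle : ∀ ζ, levi u z ζ ≤ levi (W n ε δ t) z ζ) :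
    Real.log (hess u z).det.re ≤
      n * Real.log ((1 - 2 * n * t) / (2 * NN ε z)) + Real.log (ε ^ 2 / NN ε z) := by
  have hN := NN_pos hε z
  have h1 : (hess u z).det.re ≤ (G (1 - 2 * n * t) (NN ε z) z).det.re := by
    apply Gram.det_mono _ _ (G_posDef ht hε z) hpos.posSemidef
    intro c
    have h2 := levi_eq_qf_loc hR hu (WithLp.toLp 2 fun j => star (c j))
    simp only [star_star] at h2
    have h3 : Gram.qf (hess u z) c = ((levi u z (WithLp.toLp 2 fun j => star (c j)) : ℝ) : ℂ) := by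
      rw [h2]
      rfl
    rw [h3, G_qf, Complex.ofReal_re, Complex.ofReal_re]
    refine (hle _).trans (le_of_eq ?_)
    rw [W_levi hε]
    have h4 : ‖(WithLp.toLp 2 fun j => star (c j) : Cn n)‖ ^ 2 = ∑ j, ‖c j‖ ^ 2 := by
      rw [EuclideanSpace.norm_sq_eq]
      simp
    have h5 : ‖hp z (WithLp.toLp 2 fun j => star (c j) : Cn n)‖ = ‖∑ j, z j * c j‖ := by
      have : hp z (WithLp.toLp 2 fun j => star (c j) : Cn n) = star (∑ j, z j * c j) := by
        rw [hp, star_sum]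
        apply Finset.sum_congr rfl
        intro j _
        rw [star_mul']
      rw [this, norm_star]
    rw [h4, h5]
    field_simp
  have h2 : 0 < (hess u z).det.re := (Complex.pos_iff.1 hpos.det_pos).1
  refine (Real.log_le_log h2 h1).trans (le_of_eq ?_)
  rw [G_det hε, Complex.ofReal_re, Real.log_mul (by positivity) (by positivity), Real.log_pow]

end Q74.MAF
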