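import Mathlib
import Pool.Agent.Q74.MAF.Local

/-!
# A Hartogs lemma with a rate

Negative plurisubharmonic functions of class `C²` on the unit ball which converge pointwise to
`log ‖z‖` are eventually below `log (max ‖z‖ ε) + δ`, uniformly on the closed ball.
-/

set_option autoImplicit false

open MeasureTheory Metric Set Filter Topology
open scoped ContDiff ComplexOrder

namespace Q74.MAF

open Pool.Agent.H805R2 Pool.Agent.H805K

variable {n : ℕ}

/-- Multiplication by a complex number of modulus one. -/
noncomputable def rot (c : ℂ) (hc : ‖c‖ = 1) : Cn n ≃ₗᵢ[ℝ] Cn n :=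
  LinearIsometry.toLinearIsometryEquiv
    { toFun := fun w => c • w
      map_add' := fun x y => smul_add c x y
      map_smul' := fun a x => smul_comm c a x
      norm_map' := fun x => by
        show ‖c • x‖ = ‖x‖
        rw [norm_smul, hc, one_mul] } rfl

lemma rot_apply (c : ℂ) (hc : ‖c‖ = 1) (w : Cn n) : rot c hc w = c • w := rfl

/-- Rotation invariance of integrals over balls centred at the origin. -/
lemma integral_rot (v : Cn n → ℝ) (z : Cn n) (r : ℝ) (c : ℂ) (hc : ‖c‖ = 1) :
    ∫ w in ball (0 : Cn n) r, v (z + c • w) = ∫ w in ball (0 : Cn n) r, v (z + w) := by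
  have h1 : MeasurePreserving (rot c hc : Cn n → Cn n) volume volume :=
    (rot c hc).measurePreserving
  have h2 : MeasurableEmbedding (rot c hc : Cn n → Cn n) :=
    (rot c hc).toHomeomorph.measurableEmbedding
  have h3 := h1.setIntegral_preimage_emb h2 (fun w => v (z + w)) (ball (0 : Cn n) r)
  have h4 : (rot c hc : Cn n → Cn n) ⁻¹' ball (0 : Cn n) r = ball (0 : Cn n) r := by
    ext w
    rw [mem_preimage, rot_apply, mem_ball_zero_iff, mem_ball_zero_iff, norm_smul, hc, one_mul]
  rw [h4] at h3
  rw [← h3]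
  rfl

/-- From circles to balls. -/
lemma vol_submean {v : Cn n → ℝ} (hv : Measurable v) {M : ℝ} (hM : ∀ x, |v x| ≤ M) {z : Cn n}
    {r : ℝ}
    (h : ∀ w ∈ ball (0 : Cn n) r,
      2 * Real.pi * v z ≤ ∫ θ in (0:ℝ)..(2 * Real.pi), v (z + Complex.exp (θ * Complex.I) • w)) :
    volume.real (ball (0 : Cn n) r) * v z ≤ ∫ w in ball (0 : Cn n) r, v (z + w) := by
  have hpi : (0 : ℝ) < 2 * Real.pi := by positivity
  have hmeas : Measurable (Function.uncurry fun (w : Cn n) (θ : ℝ) =>
      v (z + Complex.exp (θ * Complex.I) • w)) := by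
    apply hv.comp
    apply Continuous.measurable
    fun_prop
  have hfin : IsFiniteMeasure ((volume : Measure (Cn n)).restrict (ball (0 : Cn n) r)) :=
    ⟨by rw [Measure.restrict_apply_univ]; exact measure_ball_lt_top⟩
  have hint : Integrable (Function.uncurry fun (w : Cn n) (θ : ℝ) =>
      v (z + Complex.exp (θ * Complex.I) • w))
      (((volume : Measure (Cn n)).restrict (ball (0 : Cn n) r)).prod
        ((volume : Measure ℝ).restrict (Ioc 0 (2 * Real.pi)))) := by
    apply Integrable.of_bound hmeas.aestronglyMeasurable M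
    exact Eventually.of_forall fun x => by
      rw [Real.norm_eq_abs]
      exact hM _
  have h1 : ∫ _w in ball (0 : Cn n) r, 2 * Real.pi * v z ≤
      ∫ w in ball (0 : Cn n) r, ∫ θ in Ioc 0 (2 * Real.pi),
        v (z + Complex.exp (θ * Complex.I) • w) := by
    apply setIntegral_mono_on
    · exact integrable_const _
    · exact hint.integral_prod_left
    · exact measurableSet_ball
    · intro w hw
      rw [← intervalIntegral.integral_of_le hpi.le]
      exact h w hw
  rw [integral_integral_swap hint] at h1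
  have h2 : ∀ θ : ℝ, ∫ w in ball (0 : Cn n) r, v (z + Complex.exp (θ * Complex.I) • w) =
      ∫ w in ball (0 : Cn n) r, v (z + w) := fun θ =>
    integral_rot v z r _ (Complex.norm_exp_ofReal_mul_I θ)
  simp_rw [h2] at h1
  rw [setIntegral_const, setIntegral_const, smul_eq_mul, smul_eq_mul] at h1
  have h3 : volume.real (Ioc 0 (2 * Real.pi)) = 2 * Real.pi := by
    rw [Measure.real, Real.volume_Ioc, sub_zero, ENNReal.toReal_ofReal hpi.le]
  rw [h3] at h1
  nlinarith

/-- `log (max ‖x‖ ε)` is Lipschitz with constant `1/ε`. -/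
lemma log_max_add {ε : ℝ} (hε : 0 < ε) (x w : Cn n) :
    Real.log (max ‖x + w‖ ε) ≤ Real.log (max ‖x‖ ε) + ‖w‖ / ε := by
  have h0 : 0 < max ‖x‖ ε := lt_max_of_lt_right hε
  have h1 : 0 < max ‖x + w‖ ε := lt_max_of_lt_right hε
  have h2 : max ‖x + w‖ ε ≤ max ‖x‖ ε * (1 + ‖w‖ / ε) := by
    have h3 : ε ≤ max ‖x‖ ε := le_max_right _ _
    have h4 : ‖w‖ ≤ max ‖x‖ ε * (‖w‖ / ε) := by
      rw [mul_div_assoc', le_div_iff₀ hε]
      nlinarith [norm_nonneg w]
    apply max_le
    · calc ‖x + w‖ ≤ ‖x‖ + ‖w‖ := norm_add_le _ _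
        _ ≤ max ‖x‖ ε + max ‖x‖ ε * (‖w‖ / ε) := add_le_add (le_max_left _ _) h4
        _ = _ := by ring
    · have : 0 ≤ max ‖x‖ ε * (‖w‖ / ε) := by positivity
      nlinarith
  have h5 : 0 < 1 + ‖w‖ / ε := by positivity
  calc Real.log (max ‖x + w‖ ε) ≤ Real.log (max ‖x‖ ε * (1 + ‖w‖ / ε)) :=
        Real.log_le_log h1 h2
    _ = Real.log (max ‖x‖ ε) + Real.log (1 + ‖w‖ / ε) := Real.log_mul h0.ne' h5.ne'
    _ ≤ _ := by
        have := Real.log_le_sub_one_of_pos h5
        linarith

/-- The limit `log ‖z‖`, with value `-∞` at the origin. -/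
noncomputable def logNorm (n : ℕ) (z : Cn n) : EReal := if z = 0 then ⊥ else (Real.log ‖z‖ : ℝ)

lemma tendsto_max {ι : Type*} {l : Filter ι} {u : ι → ℝ} {x : Cn n} {ε : ℝ} (hε : 0 < ε)
    (h : Tendsto (fun s => (u s : EReal)) l (𝓝 (logNorm n x))) :
    Tendsto (fun s => max (u s) (Real.log ε)) l (𝓝 (Real.log (max ‖x‖ ε))) := by
  by_cases hx : x = 0
  · rw [logNorm, if_pos hx] at h
    have h1 : ∀ᶠ s in l, (u s : EReal) < (Real.log ε : ℝ) :=
      h.eventually (gt_mem_nhds (EReal.bot_lt_coe _))
    rw [hx, norm_zero, max_eq_right hε.le]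
    apply tendsto_const_nhds.congr'
    filter_upwards [h1] with s hs
    rw [max_eq_right (EReal.coe_lt_coe_iff.1 hs).le]
  · rw [logNorm, if_neg hx] at h
    have h1 : Tendsto u l (𝓝 (Real.log ‖x‖)) := EReal.tendsto_coe.1 h
    have h2 : Real.log (max ‖x‖ ε) = max (Real.log ‖x‖) (Real.log ε) := by
      have hx' : 0 < ‖x‖ := norm_pos_iff.2 hx
      rcases le_total ‖x‖ ε with h3 | h3
      · rw [max_eq_right h3, max_eq_right (Real.log_le_log hx' h3)]
      · rw [max_eq_left h3, max_eq_left (Real.log_le_log hε h3)]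
    rw [h2]
    exact h1.max tendsto_const_nhds

open Classical in
/-- The Hartogs lemma. -/
theorem hartogs {ι : Type*} {l : Filter ι} [l.IsCountablyGenerated] (u : ι → Cn n → ℝ)
    (hC2 : ∀ᶠ s in l, ContDiffOn ℝ 2 (u s) (ball 0 1))
    (hlevi : ∀ᶠ s in l, ∀ x ∈ ball (0 : Cn n) 1, ∀ ξ, 0 ≤ levi (u s) x ξ)
    (hneg : ∀ᶠ s in l, ∀ x ∈ closedBall (0 : Cn n) 1, u s x ≤ 0)
    (hlim : ∀ x ∈ ball (0 : Cn n) 1, Tendsto (fun s => (u s x : EReal)) l (𝓝 (logNorm n x)))
    {ε δ : ℝ} (hε : 0 < ε) (hε1 : ε < 1) (hδ : 0 < δ) :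
    ∀ᶠ s in l, ∀ x ∈ closedBall (0 : Cn n) 1, u s x ≤ Real.log (max ‖x‖ ε) + δ := by
  -- the truncated functions
  obtain ⟨v, hv⟩ : ∃ v : ι → Cn n → ℝ, v = fun s =>
    (ball (0 : Cn n) 1).piecewise (fun x => max (u s x) (Real.log ε)) (fun _ => 0) := ⟨_, rfl⟩
  obtain ⟨V, hV⟩ : ∃ V : Cn n → ℝ, V =
    (ball (0 : Cn n) 1).piecewise (fun x => Real.log (max ‖x‖ ε)) (fun _ => 0) := ⟨_, rfl⟩
  have hlogε : Real.log ε < 0 := Real.log_neg hε hε1
  have hvin : ∀ s, ∀ x ∈ ball (0 : Cn n) 1, v s x = max (u s x) (Real.log ε) := by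
    intro s x hx
    rw [hv]
    exact Set.piecewise_eq_of_mem _ _ _ hx
  have hVin : ∀ x ∈ ball (0 : Cn n) 1, V x = Real.log (max ‖x‖ ε) := by
    intro x hx
    rw [hV]
    exact Set.piecewise_eq_of_mem _ _ _ hx
  have hvout : ∀ s, ∀ x ∉ ball (0 : Cn n) 1, v s x = 0 := by
    intro s x hx
    rw [hv]
    exact Set.piecewise_eq_of_notMem _ _ _ hx
  have hVout : ∀ x ∉ ball (0 : Cn n) 1, V x = 0 := by
    intro x hx
    rw [hV]
    exact Set.piecewise_eq_of_notMem _ _ _ hx
  have hVmeas : Measurable V := by
    rw [hV]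
    apply ContinuousOn.measurable_piecewise _ continuousOn_const measurableSet_ball
    apply Continuous.continuousOn
    apply Continuous.log
    · fun_prop
    · intro x
      exact (lt_max_of_lt_right hε).ne'
  have hVb : ∀ x, |V x| ≤ -Real.log ε := by
    intro x
    by_cases hx : x ∈ ball (0 : Cn n) 1
    · rw [hVin x hx]
      rw [mem_ball_zero_iff] at hx
      have h1 : Real.log (max ‖x‖ ε) ≤ 0 :=
        Real.log_nonpos (by positivity) (max_le hx.le hε1.le)
      have h2 : Real.log ε ≤ Real.log (max ‖x‖ ε) := Real.log_le_log hε (le_max_right _ _)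
      rw [abs_of_nonpos h1]
      linarith
    · rw [hVout x hx, abs_zero]
      linarith
  have hvb : ∀ᶠ s in l, ∀ x, |v s x| ≤ -Real.log ε := by
    filter_upwards [hneg] with s hs x
    by_cases hx : x ∈ ball (0 : Cn n) 1
    · rw [hvin s x hx]
      have h1 : max (u s x) (Real.log ε) ≤ 0 := max_le (hs x (ball_subset_closedBall hx)) hlogε.le
      rw [abs_of_nonpos h1]
      linarith [le_max_right (u s x) (Real.log ε)]
    · rw [hvout s x hx, abs_zero]
      linarith
  have hvmeas : ∀ᶠ s in l, Measurable (v s) := by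
    filter_upwards [hC2] with s hs
    rw [hv]
    apply ContinuousOn.measurable_piecewise _ continuousOn_const measurableSet_ball
    exact hs.continuousOn.sup continuousOn_const
  -- convergence of the integrals
  have hint : Tendsto (fun s => ∫ x in ball (0 : Cn n) 1, |v s x - V x|) l (𝓝 0) := by
    have h0 : (0 : ℝ) = ∫ x in ball (0 : Cn n) 1, (0 : ℝ) := by simp
    rw [h0]
    apply tendsto_integral_filter_of_dominated_convergence (fun _ => 2 * -Real.log ε)
    · filter_upwards [hvmeas] with s hs
      exact ((hs.sub hVmeas).abs).aestronglyMeasurable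
    · filter_upwards [hvb] with s hs
      refine Eventually.of_forall fun x => ?_
      rw [Real.norm_eq_abs, abs_abs]
      have h1 := hs x
      have h2 := hVb x
      calc |v s x - V x| ≤ |v s x| + |V x| := abs_sub _ _
        _ ≤ _ := by linarith
    · exact integrableOn_const (by exact measure_ball_lt_top.ne)
    · rw [ae_restrict_iff' measurableSet_ball]
      refine Eventually.of_forall fun x hx => ?_
      have h1 := tendsto_max hε (hlim x hx)
      have h2 : Tendsto (fun s => |max (u s x) (Real.log ε) - Real.log (max ‖x‖ ε)|) l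
          (𝓝 |Real.log (max ‖x‖ ε) - Real.log (max ‖x‖ ε)|) :=
        (h1.sub tendsto_const_nhds).abs
      rw [sub_self, abs_zero] at h2
      apply h2.congr
      intro s
      rw [hvin s x hx, hVin x hx]
  -- the radius
  obtain ⟨r, hr0, hr1, hr2, hr3⟩ : ∃ r : ℝ, 0 < r ∧ r < 1 ∧ r / ε ≤ δ / 2 ∧
      -δ ≤ Real.log (1 - r) := by
    have h1 : ∀ᶠ r in 𝓝[>] (0 : ℝ), r < 1 :=
      (eventually_lt_nhds one_pos).filter_mono nhdsWithin_le_nhds
    have h2 : ∀ᶠ r in 𝓝[>] (0 : ℝ), r < ε * (δ / 2) :=
      (eventually_lt_nhds (by positivity)).filter_mono nhdsWithin_le_nhds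
    have h3 : ∀ᶠ r in 𝓝[>] (0 : ℝ), r < 1 - Real.exp (-δ) := by
      have : Real.exp (-δ) < 1 := by
        rw [← Real.exp_zero]
        exact Real.exp_lt_exp.2 (by linarith)
      exact (eventually_lt_nhds (by linarith)).filter_mono nhdsWithin_le_nhds
    obtain ⟨r, ha, hb, hc, hd⟩ := (h1.and (h2.and (h3.and self_mem_nhdsWithin))).exists
    have hr : 0 < r := hd
    refine ⟨r, hr, ha, ?_, ?_⟩
    · rw [div_le_iff₀ hε]
      linarith
    · rw [Real.le_log_iff_exp_le (by linarith)]
      linarith
  have hβ : 0 < volume.real (ball (0 : Cn n) r) := by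
    rw [Measure.real]
    exact ENNReal.toReal_pos (measure_ball_pos _ _ hr0).ne' measure_ball_lt_top.ne
  have hsmall : ∀ᶠ s in l, ∫ x in ball (0 : Cn n) 1, |v s x - V x| <
      volume.real (ball (0 : Cn n) r) * (δ / 2) :=
    hint.eventually (gt_mem_nhds (by positivity))
  filter_upwards [hC2, hlevi, hneg, hvb, hvmeas, hsmall] with s h1 h2 h3 h4 h5 h6 x hx
  by_cases hxr : ‖x‖ ≤ 1 - r
  · have hsub : ∀ w ∈ ball (0 : Cn n) r, x + w ∈ ball (0 : Cn n) 1 := by
      intro w hw
      rw [mem_ball_zero_iff] at hw ⊢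
      linarith [norm_add_le x w]
    have hxb : x ∈ ball (0 : Cn n) 1 := by
      rw [mem_ball_zero_iff]
      linarith
    have hballsub : ball x r ⊆ ball (0 : Cn n) 1 := by
      intro y hy
      have := hsub (y - x) (by rw [mem_ball_zero_iff, ← dist_eq_norm]; exact hy)
      rwa [add_sub_cancel] at this
    -- submean inequality for the truncated function
    have hcirc : ∀ w ∈ ball (0 : Cn n) r, 2 * Real.pi * v s x ≤
        ∫ θ in (0:ℝ)..(2 * Real.pi), v s (x + Complex.exp (θ * Complex.I) • w) := by
      intro w hw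
      have hw' := hw
      rw [mem_ball_zero_iff] at hw'
      have hin : ∀ θ : ℝ, x + Complex.exp (θ * Complex.I) • w ∈ ball (0 : Cn n) 1 := by
        intro θ
        apply hsub
        rw [mem_ball_zero_iff, norm_smul, Complex.norm_exp_ofReal_mul_I, one_mul]
        exact hw'
      have hpi : (0 : ℝ) < 2 * Real.pi := by positivity
      have hcu : Continuous fun θ : ℝ => u s (x + Complex.exp (θ * Complex.I) • w) := by
        apply ContinuousOn.comp_continuous h1.continuousOn (by fun_prop) hin
      have hcv : Continuous fun θ : ℝ => v s (x + Complex.exp (θ * Complex.I) • w) := by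
        have : (fun θ : ℝ => v s (x + Complex.exp (θ * Complex.I) • w)) = fun θ : ℝ =>
            max (u s (x + Complex.exp (θ * Complex.I) • w)) (Real.log ε) := by
          funext θ
          exact hvin s _ (hin θ)
        rw [this]
        exact hcu.max continuous_const
      have hle := le_cav (u s) x w hw' (h1.mono hballsub) (fun y hy ξ => h2 y (hballsub hy) ξ)
      rw [hvin s x hxb, mul_max_of_nonneg _ _ hpi.le]
      apply max_le
      · refine hle.trans ?_
        apply intervalIntegral.integral_mono_on hpi.le (hcu.intervalIntegrable _ _)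
          (hcv.intervalIntegrable _ _)
        intro θ _
        rw [hvin s _ (hin θ)]
        exact le_max_left _ _
      · have : 2 * Real.pi * Real.log ε = ∫ _θ in (0:ℝ)..(2 * Real.pi), Real.log ε := by
          rw [intervalIntegral.integral_const, smul_eq_mul, sub_zero]
        rw [this]
        apply intervalIntegral.integral_mono_on hpi.le (continuous_const.intervalIntegrable _ _)
          (hcv.intervalIntegrable _ _)
        intro θ _
        rw [hvin s _ (hin θ)]
        exact le_max_right _ _
    have hvol := vol_submean h5 h4 hcirc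
    -- comparison with the limit
    have hfin : IsFiniteMeasure ((volume : Measure (Cn n)).restrict (ball (0 : Cn n) r)) :=
      ⟨by rw [Measure.restrict_apply_univ]; exact measure_ball_lt_top⟩
    have hmadd : Measurable fun w : Cn n => x + w := measurable_const_add x
    have hi1 : IntegrableOn (fun w => v s (x + w)) (ball (0 : Cn n) r) := by
      apply Integrable.of_bound (h5.comp hmadd).aestronglyMeasurable (-Real.log ε)
      exact Eventually.of_forall fun w => by rw [Real.norm_eq_abs]; exact h4 _
    have hi2 : IntegrableOn (fun w => V (x + w)) (ball (0 : Cn n) r) := by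
      apply Integrable.of_bound (hVmeas.comp hmadd).aestronglyMeasurable (-Real.log ε)
      exact Eventually.of_forall fun w => by rw [Real.norm_eq_abs]; exact hVb _
    have hi3 : IntegrableOn (fun w => |v s (x + w) - V (x + w)|) (ball (0 : Cn n) r) :=
      (hi1.sub hi2).abs
    have e1 : ∫ w in ball (0 : Cn n) r, v s (x + w) ≤
        ∫ w in ball (0 : Cn n) r, (Real.log (max ‖x‖ ε) + r / ε + |v s (x + w) - V (x + w)|) := by
      apply setIntegral_mono_on hi1 _ measurableSet_ball
      · intro w hw
        have hw' := hw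
        rw [mem_ball_zero_iff] at hw'
        have a1 := hVin _ (hsub w hw)
        have a2 := log_max_add hε x w
        have a3 : ‖w‖ / ε ≤ r / ε := by gcongr
        have a4 := le_abs_self (v s (x + w) - V (x + w))
        linarith
      · exact (integrable_const _).add hi3
    have e2 : ∫ w in ball (0 : Cn n) r,
        (Real.log (max ‖x‖ ε) + r / ε + |v s (x + w) - V (x + w)|) =
        volume.real (ball (0 : Cn n) r) * (Real.log (max ‖x‖ ε) + r / ε) +
          ∫ w in ball (0 : Cn n) r, |v s (x + w) - V (x + w)| := by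
      rw [integral_add (integrable_const _) hi3, setIntegral_const, smul_eq_mul]
    have e3 : ∫ w in ball (0 : Cn n) r, |v s (x + w) - V (x + w)| ≤
        ∫ y in ball (0 : Cn n) 1, |v s y - V y| := by
      have hmp : MeasurePreserving (fun w : Cn n => x + w) volume volume :=
        measurePreserving_add_left volume x
      have hemb : MeasurableEmbedding (fun w : Cn n => x + w) := measurableEmbedding_addLeft x
      have b1 := hmp.setIntegral_preimage_emb hemb (fun y => |v s y - V y|) (ball x r)
      have b2 : (fun w : Cn n => x + w) ⁻¹' ball x r = ball (0 : Cn n) r := by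
        ext w
        rw [mem_preimage, mem_ball, dist_eq_norm, add_sub_cancel_left, mem_ball_zero_iff]
      rw [b2] at b1
      rw [b1]
      apply setIntegral_mono_set
      · have : IsFiniteMeasure ((volume : Measure (Cn n)).restrict (ball (0 : Cn n) 1)) :=
          ⟨by rw [Measure.restrict_apply_univ]; exact measure_ball_lt_top⟩
        apply Integrable.of_bound ((h5.sub hVmeas).abs).aestronglyMeasurable (2 * -Real.log ε)
        refine Eventually.of_forall fun y => ?_
        rw [Real.norm_eq_abs, abs_abs]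
        have c1 := h4 y
        have c2 := hVb y
        calc |v s y - V y| ≤ |v s y| + |V y| := abs_sub _ _
          _ ≤ _ := by linarith
      · exact Eventually.of_forall fun y => abs_nonneg _
      · exact hballsub.eventuallyLE
    have e4 : volume.real (ball (0 : Cn n) r) * v s x ≤
        volume.real (ball (0 : Cn n) r) * (Real.log (max ‖x‖ ε) + δ) := by
      nlinarith
    have e5 : v s x ≤ Real.log (max ‖x‖ ε) + δ := le_of_mul_le_mul_left e4 hβ
    rw [hvin s x hxb] at e5
    exact (le_max_left _ _).trans e5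
  · push Not at hxr
    have e1 : u s x ≤ 0 := h3 x hx
    have e2 : Real.log (1 - r) ≤ Real.log (max ‖x‖ ε) :=
      Real.log_le_log (by linarith) (hxr.le.trans (le_max_left _ _))
    linarith

end Q74.MAF
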