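import Mathlib
import Pool.Agent.Q74.MAF.Hartogs

/-!
# `log ‖z‖` is plurisubharmonic
-/

set_option autoImplicit false

open MeasureTheory Metric Set Filter Topology
open scoped ContDiff ComplexOrder

namespace Q74.MAF

open Pool.Agent.H805R2 Pool.Agent.H805K

variable {n : ℕ}

lemma logNorm_usc : UpperSemicontinuous (logNorm n) := by
  intro z y hy
  by_cases hz : z = 0
  · rw [hz] at hy ⊢
    rw [logNorm, if_pos rfl] at hy
    obtain ⟨c, hc1, hc2⟩ := EReal.lt_iff_exists_real_btwn.1 hy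
    have h1 : ∀ᶠ w : Cn n in 𝓝 0, w ∈ ball (0 : Cn n) (Real.exp c) :=
      isOpen_ball.mem_nhds (mem_ball_self (Real.exp_pos c))
    filter_upwards [h1] with w hw
    rw [mem_ball_zero_iff] at hw
    by_cases hw0 : w = 0
    · rw [logNorm, if_pos hw0]
      exact hy
    · rw [logNorm, if_neg hw0]
      refine lt_of_le_of_lt ?_ hc2
      rw [EReal.coe_le_coe_iff]
      have h2 := Real.log_le_log (norm_pos_iff.2 hw0) hw.le
      rwa [Real.log_exp] at h2
  · have h1 : ContinuousAt (fun w : Cn n => ((Real.log ‖w‖ : ℝ) : EReal)) z := by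
      have h2 : ContinuousAt (fun w : Cn n => Real.log ‖w‖) z :=
        ContinuousAt.log continuous_norm.continuousAt (norm_pos_iff.2 hz).ne'
      exact continuous_coe_real_ereal.continuousAt.comp h2
    rw [logNorm, if_neg hz] at hy
    have h3 : ∀ᶠ w in 𝓝 z, ((Real.log ‖w‖ : ℝ) : EReal) < y := h1.eventually (gt_mem_nhds hy)
    filter_upwards [h3, isOpen_ne.mem_nhds hz] with w hw hw0
    rw [logNorm, if_neg hw0]
    exact hw

/-- The submean value property of `log |α + β ζ|` for continuous majorants. -/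
lemma log_affine {α β : ℂ} (hα : α ≠ 0) {φ : ℂ → ℝ} (hφ : Continuous φ)
    (h : ∀ ζ : ℂ, ‖ζ‖ = 1 → α + ζ * β ≠ 0 → Real.log ‖α + ζ * β‖ ≤ φ ζ) :
    Real.log ‖α‖ ≤ Real.circleAverage φ 0 1 := by
  have hφi : CircleIntegrable φ 0 1 := hφ.continuousOn.circleIntegrable zero_le_one
  by_cases hβ : β = 0
  · have h1 : Real.circleAverage (fun _ : ℂ => Real.log ‖α‖) 0 1 ≤ Real.circleAverage φ 0 1 := by
      apply Real.circleAverage_mono (by simp) hφi
      intro ζ hζ
      rw [mem_sphere_iff_norm, sub_zero, abs_one] at hζ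
      have := h ζ hζ (by rw [hβ, mul_zero, add_zero]; exact hα)
      rwa [hβ, mul_zero, add_zero] at this
    rwa [Real.circleAverage_const] at h1
  · obtain ⟨ζ₀, hζ₀⟩ : ∃ ζ₀ : ℂ, ζ₀ = -α / β := ⟨_, rfl⟩
    have hfac : ∀ ζ : ℂ, α + ζ * β = β * (ζ - ζ₀) := by
      intro ζ
      rw [hζ₀]
      field_simp
      ring
    have hmean : Real.circleAverage (fun x => Real.log ‖x - ζ₀‖) 0 1 = ‖ζ₀‖.posLog :=
      circleAverage_log_norm_sub_const_eq_posLog
    have hci : CircleIntegrable (fun x => Real.log ‖x - ζ₀‖) 0 1 :=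
      MeromorphicOn.circleIntegrable_log_norm (fun x _ => by fun_prop)
    have hpi : (0 : ℝ) ≤ 2 * Real.pi := by positivity
    have hle : Real.circleAverage (fun x => Real.log ‖β‖ + Real.log ‖x - ζ₀‖) 0 1 ≤
        Real.circleAverage φ 0 1 := by
      rw [Real.circleAverage_def, Real.circleAverage_def]
      apply smul_le_smul_of_nonneg_left _ (by positivity)
      apply intervalIntegral.integral_mono_ae hpi
      · exact ((circleIntegrable_const (Real.log ‖β‖) 0 1).add hci)
      · exact hφi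
      · have hnull : ∀ᵐ θ : ℝ, θ ∉ circleMap 0 1 ⁻¹' {ζ₀} :=
          ((countable_singleton ζ₀).preimage_circleMap 0 one_ne_zero).ae_notMem _
        filter_upwards [hnull] with θ hθ
        have hne : circleMap 0 1 θ ≠ ζ₀ := hθ
        have hnorm : ‖circleMap 0 1 θ‖ = 1 := by simp
        have h2 : circleMap 0 1 θ - ζ₀ ≠ 0 := sub_ne_zero.2 hne
        have h1 := h (circleMap 0 1 θ) hnorm (by rw [hfac]; exact mul_ne_zero hβ h2)
        rw [hfac, norm_mul, Real.log_mul (norm_pos_iff.2 hβ).ne' (norm_pos_iff.2 h2).ne'] at h1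
        exact h1
    have hsum : Real.circleAverage (fun x => Real.log ‖β‖ + Real.log ‖x - ζ₀‖) 0 1 =
        Real.log ‖β‖ + ‖ζ₀‖.posLog := by
      have := Real.circleAverage_add (circleIntegrable_const (Real.log ‖β‖) 0 1) hci
      rw [Real.circleAverage_const, hmean] at this
      exact this
    have hζ0 : ζ₀ ≠ 0 := by
      rw [hζ₀]
      exact div_ne_zero (neg_ne_zero.2 hα) hβ
    have h3 : Real.log ‖ζ₀‖ ≤ ‖ζ₀‖.posLog := le_max_right _ _
    have h4 : Real.log ‖α‖ = Real.log ‖β‖ + Real.log ‖ζ₀‖ := by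
      rw [← Real.log_mul (norm_pos_iff.2 hβ).ne' (norm_pos_iff.2 hζ0).ne', ← norm_mul]
      rw [hζ₀, mul_div_cancel₀ _ hβ, norm_neg]
    linarith

lemma logNorm_submean (a b : Cn n) (φ : ℂ → ℝ) (hφ : Continuous φ)
    (h : ∀ ζ : ℂ, ‖ζ‖ = 1 → logNorm n (a + ζ • b) ≤ ((φ ζ : ℝ) : EReal)) :
    logNorm n a ≤ ((Real.circleAverage φ 0 1 : ℝ) : EReal) := by
  by_cases ha : a = 0
  · rw [logNorm, if_pos ha]
    exact bot_le
  · have ha' : 0 < ‖a‖ := norm_pos_iff.2 ha
    obtain ⟨e, he⟩ : ∃ e : Cn n, e = ((‖a‖⁻¹ : ℝ) : ℂ) • a := ⟨_, rfl⟩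
    have he1 : ‖e‖ = 1 := by
      rw [he, norm_smul, Complex.norm_real, Real.norm_eq_abs, abs_of_pos (by positivity)]
      field_simp
    have hea : inner ℂ e a = (‖a‖ : ℂ) := by
      rw [he, inner_smul_left, inner_self_eq_norm_sq_to_K, Complex.conj_ofReal]
      push_cast
      have : (‖a‖ : ℂ) ≠ 0 := by exact_mod_cast ha'.ne'
      simp only [Complex.coe_algebraMap]
      field_simp
    have key := log_affine (α := inner ℂ e a) (β := inner ℂ e b) (by
      rw [hea]
      exact_mod_cast ha'.ne') hφ (fun ζ hζ hne => by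
      have h1 : inner ℂ e a + ζ * inner ℂ e b = inner ℂ e (a + ζ • b) := by
        rw [inner_add_right, inner_smul_right]
      rw [h1] at hne ⊢
      have h2 : a + ζ • b ≠ 0 := by
        intro h0
        rw [h0, inner_zero_right] at hne
        exact hne rfl
      have h3 := h ζ hζ
      rw [logNorm, if_neg h2, EReal.coe_le_coe_iff] at h3
      refine le_trans ?_ h3
      apply Real.log_le_log (norm_pos_iff.2 hne)
      have h4 := norm_inner_le_norm (𝕜 := ℂ) e (a + ζ • b)
      rwa [he1, one_mul] at h4)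
    rw [hea, Complex.norm_real, Real.norm_eq_abs, abs_of_pos ha'] at key
    rw [logNorm, if_neg ha, EReal.coe_le_coe_iff]
    exact key

end Q74.MAF
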