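import Mathlib
import Pool.Agent.Q74.MAF.Hartogs
import Pool.Agent.Q74.MAF.Barrier

/-!
# No solution of the complex Monge-Ampère flow with initial datum `log ‖z‖`
-/

set_option autoImplicit false

open MeasureTheory Metric Set Filter Topology
open scoped ContDiff ComplexOrder

namespace Q74.MAF

open Pool.Agent.H805R2 Pool.Agent.H805K

variable {n : ℕ}

lemma levi_pos {f : Cn n → ℝ} {y : Cn n} {R : ℝ} (hR : 0 < R)
    (hf : ContDiffOn ℝ 2 f (ball y R)) (hpos : (hess f y).PosDef) {ζ : Cn n} (hζ : ζ ≠ 0) :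
    0 < levi f y ζ := by
  have h1 := levi_eq_qf_loc hR hf ζ
  have h2 : (fun j => star (ζ j)) ≠ 0 := by
    intro h
    apply hζ
    ext j
    have := congrFun h j
    simpa using this
  have h3 := hpos.dotProduct_mulVec_pos h2
  rw [← h1] at h3
  exact_mod_cast h3

lemma levi_nonneg_of_posDef {f : Cn n → ℝ} {y : Cn n} {R : ℝ} (hR : 0 < R)
    (hf : ContDiffOn ℝ 2 f (ball y R)) (hpos : (hess f y).PosDef) (ζ : Cn n) :
    0 ≤ levi f y ζ := by
  by_cases hζ : ζ = 0
  · rw [hζ]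
    unfold levi Pool.Agent.H805R2.D2
    simp
  · exact (levi_pos hR hf hpos hζ).le

/-- a ball around an interior point -/
lemma inner_ball {x : Cn n} (hx : x ∈ ball (0 : Cn n) 1) :
    0 < 1 - ‖x‖ ∧ ball x (1 - ‖x‖) ⊆ ball (0 : Cn n) 1 := by
  rw [mem_ball_zero_iff] at hx
  refine ⟨by linarith, fun y hy => ?_⟩
  rw [mem_ball, dist_eq_norm] at hy
  rw [mem_ball_zero_iff]
  have : ‖y‖ ≤ ‖y - x‖ + ‖x‖ := by
    have := norm_add_le (y - x) x
    rwa [sub_add_cancel] at this
  linarith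

/-- A strictly plurisubharmonic function which vanishes on the unit sphere is nonpositive. -/
lemma nonpos_of_psh (hn : 1 ≤ n) {f : Cn n → ℝ} (hc : ContinuousOn f (closedBall 0 1))
    (hf : ContDiffOn ℝ 2 f (ball 0 1)) (hpos : ∀ y ∈ ball (0 : Cn n) 1, (hess f y).PosDef)
    (h0 : ∀ y ∈ sphere (0 : Cn n) 1, f y = 0) : ∀ x ∈ closedBall (0 : Cn n) 1, f x ≤ 0 := by
  obtain ⟨y, hy, hmax⟩ := (isCompact_closedBall (0 : Cn n) 1).exists_isMaxOn
    ⟨0, mem_closedBall_self zero_le_one⟩ hc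
  intro x hx
  refine (hmax hx).trans ?_
  by_cases hyb : y ∈ ball (0 : Cn n) 1
  · exfalso
    obtain ⟨hR, hsub⟩ := inner_ball hyb
    have hloc : IsLocalMax f y := by
      filter_upwards [isOpen_ball.mem_nhds hyb] with w hw
      exact hmax (ball_subset_closedBall hw)
    have hζ : bas (⟨0, hn⟩ : Fin n) ≠ 0 := by
      intro h
      have := congrArg (fun v : Cn n => v ⟨0, hn⟩) h
      simp [bas] at this
    have h1 := levi_nonpos_loc hR (hf.mono hsub) hloc (bas ⟨0, hn⟩)
    have h2 := levi_pos hR (hf.mono hsub) (hpos y hyb) hζ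
    linarith
  · apply (h0 y _).le
    rw [mem_sphere_zero_iff_norm]
    rw [mem_closedBall_zero_iff] at hy
    rw [mem_ball_zero_iff] at hyb
    push Not at hyb
    exact le_antisymm hy hyb

/-- derivative at a maximum from the left -/
lemma deriv_nonneg_of_left {g : ℝ → ℝ} {g' a t : ℝ} (hat : a < t) (hg : HasDerivAt g g' t)
    (h : ∀ s ∈ Icc a t, g s ≤ g t) : 0 ≤ g' := by
  have h1 : Tendsto (slope g t) (𝓝[<] t) (𝓝 g') := by
    have := hasDerivAt_iff_tendsto_slope.1 hg
    exact this.mono_left (nhdsWithin_mono _ (fun x hx => ne_of_lt hx))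
  refine ge_of_tendsto h1 ?_
  have h2 : ∀ᶠ s in 𝓝[<] t, a < s :=
    (eventually_gt_nhds hat).filter_mono nhdsWithin_le_nhds
  filter_upwards [h2, self_mem_nhdsWithin] with s hs hst
  have hst' : s < t := hst
  rw [slope_def_field]
  apply div_nonneg_of_nonpos
  · linarith [h s ⟨hs.le, hst'.le⟩]
  · linarith

/-- The core of the argument: the hypotheses are those of a solution of the flow in the unit ball
with zero boundary values and initial datum `log ‖z‖`. -/
theorem no_solution (hn : 1 ≤ n) {T : ℝ} (hT : 0 < T) (u : ℝ → Cn n → ℝ)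
    (hcont : ContinuousOn (fun p : ℝ × Cn n => u p.1 p.2) (Ioo 0 T ×ˢ closedBall 0 1))
    (hsm : ContDiffOn ℝ 2 (fun p : ℝ × Cn n => u p.1 p.2) (Ioo 0 T ×ˢ ball 0 1))
    (hpos : ∀ t ∈ Ioo 0 T, ∀ z ∈ ball (0 : Cn n) 1, (hess (u t) z).PosDef)
    (hflow : ∀ t ∈ Ioo 0 T, ∀ z ∈ ball (0 : Cn n) 1,
      deriv (fun s => u s z) t = Real.log (hess (u t) z).det.re)
    (hbd : ∀ t ∈ Ioo 0 T, ∀ z ∈ sphere (0 : Cn n) 1, u t z = 0)
    (hini : ∀ z ∈ ball (0 : Cn n) 1,
      Tendsto (fun t => (u t z : EReal)) (𝓝[>] 0) (𝓝 (logNorm n z))) : False := by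
  have hn' : (1 : ℝ) ≤ n := by exact_mod_cast hn
  -- slices
  have hslice_c : ∀ t ∈ Ioo 0 T, ContinuousOn (u t) (closedBall 0 1) := by
    intro t ht
    have : ContinuousOn (fun z : Cn n => ((t, z) : ℝ × Cn n)) (closedBall 0 1) := by fun_prop
    exact hcont.comp this fun z hz => ⟨ht, hz⟩
  have hslice_s : ∀ t ∈ Ioo 0 T, ContDiffOn ℝ 2 (u t) (ball 0 1) := by
    intro t ht
    have : ContDiffOn ℝ 2 (fun z : Cn n => ((t, z) : ℝ × Cn n)) (ball 0 1) := by fun_prop
    exact hsm.comp this fun z hz => ⟨ht, hz⟩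
  have hneg : ∀ t ∈ Ioo 0 T, ∀ x ∈ closedBall (0 : Cn n) 1, u t x ≤ 0 := fun t ht =>
    nonpos_of_psh hn (hslice_c t ht) (hslice_s t ht) (hpos t ht) (hbd t ht)
  have hev : ∀ᶠ t in 𝓝[>] (0 : ℝ), t ∈ Ioo 0 T := Ioo_mem_nhdsGT hT
  -- the final time
  obtain ⟨t₁, ht0, htT, htn⟩ : ∃ t₁ : ℝ, 0 < t₁ ∧ t₁ < T ∧ 2 * n * t₁ ≤ 1 / 2 := by
    refine ⟨min (T / 2) (1 / (4 * n)), by positivity,
      (min_le_left _ _).trans_lt (by linarith), ?_⟩
    have h1 : min (T / 2) (1 / (4 * n)) ≤ 1 / (4 * (n : ℝ)) := min_le_right _ _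
    have h2 : 2 * (n : ℝ) * (1 / (4 * n)) = 1 / 2 := by field_simp; ring
    calc 2 * (n : ℝ) * min (T / 2) (1 / (4 * n)) ≤ 2 * (n : ℝ) * (1 / (4 * n)) := by gcongr
      _ = 1 / 2 := h2
  -- the parameter
  obtain ⟨ε, hε, hε1, hεu⟩ : ∃ ε : ℝ, 0 < ε ∧ ε < 1 ∧
      (1 - 2 * n * t₁) * Real.log ε + 1 < u t₁ 0 := by
    have hK : ∃ K : ℝ, 0 < K ∧ -(K / 2) + 1 < u t₁ 0 := by
      refine ⟨max 1 (2 * (2 - u t₁ 0)), by positivity, ?_⟩
      have := le_max_right 1 (2 * (2 - u t₁ 0))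
      linarith
    obtain ⟨K, hK0, hK1⟩ := hK
    refine ⟨Real.exp (-K), Real.exp_pos _, ?_, ?_⟩
    · rw [← Real.exp_zero]
      exact Real.exp_lt_exp.2 (by linarith)
    · rw [Real.log_exp]
      nlinarith
  -- the initial comparison
  have hH : ∀ᶠ s in 𝓝[>] (0 : ℝ), ∀ x ∈ closedBall (0 : Cn n) 1,
      u s x ≤ Real.log (max ‖x‖ ε) + 1 / 2 := by
    apply hartogs u _ _ _ hini hε hε1 one_half_pos
    · filter_upwards [hev] with s hs using hslice_s s hs
    · filter_upwards [hev] with s hs x hx ξ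
      obtain ⟨hR, hsub⟩ := inner_ball hx
      exact levi_nonneg_of_posDef hR ((hslice_s s hs).mono hsub) (hpos s hs x hx) ξ
    · filter_upwards [hev] with s hs using hneg s hs
  obtain ⟨s, hs1, hs2, hs3⟩ : ∃ s : ℝ, (∀ x ∈ closedBall (0 : Cn n) 1,
      u s x ≤ Real.log (max ‖x‖ ε) + 1 / 2) ∧ 0 < s ∧ s < t₁ := by
    obtain ⟨s, h1, h2⟩ := (hH.and (Ioo_mem_nhdsGT ht0)).exists
    exact ⟨s, h1, h2.1, h2.2⟩
  have hsub : Icc s t₁ ⊆ Ioo 0 T := fun t ht => ⟨hs2.trans_le ht.1, ht.2.trans_lt htT⟩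
  have hκ : ∀ t ∈ Icc s t₁, 1 / 2 ≤ 1 - 2 * n * t ∧ 1 - 2 * n * t ≤ 1 := by
    intro t ht
    have h1 : 2 * (n : ℝ) * t ≤ 2 * n * t₁ := by
      have := ht.2
      gcongr
    have h2 : 0 ≤ 2 * (n : ℝ) * t := by
      have := hs2.trans_le ht.1
      positivity
    constructor <;> linarith
  have hψlow : ∀ x : Cn n, Real.log (max ‖x‖ ε) ≤ 1 / 2 * Real.log (NN ε x) := by
    intro x
    have h1 : 0 < max ‖x‖ ε := lt_max_of_lt_right hε
    have h2 : (max ‖x‖ ε) ^ 2 ≤ NN ε x := by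
      unfold NN
      rcases le_total ‖x‖ ε with h | h
      · rw [max_eq_right h]; nlinarith [sq_nonneg ‖x‖]
      · rw [max_eq_left h]; nlinarith [sq_nonneg ε]
    have h3 := Real.log_le_log (by positivity) h2
    rw [Real.log_pow] at h3
    push_cast at h3
    linarith
  have hψup : ∀ x ∈ closedBall (0 : Cn n) 1, 1 / 2 * Real.log (NN ε x) ≤ 1 / 2 := by
    intro x hx
    rw [mem_closedBall_zero_iff] at hx
    have h1 : NN ε x ≤ 2 := by
      unfold NN
      have := norm_nonneg x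
      nlinarith
    have h2 := Real.log_le_log (NN_pos hε x) h1
    have h3 : Real.log 2 ≤ 1 := by
      have := Real.log_two_lt_d9
      linarith
    linarith
  -- the comparison
  have key : ∀ p ∈ Icc s t₁ ×ˢ closedBall (0 : Cn n) 1, u p.1 p.2 - W n ε 1 p.1 p.2 ≤ 0 := by
    have hKc : IsCompact (Icc s t₁ ×ˢ closedBall (0 : Cn n) 1) :=
      isCompact_Icc.prod (isCompact_closedBall _ _)
    have hWc : Continuous fun p : ℝ × Cn n => W n ε 1 p.1 p.2 := by
      unfold W
      have : Continuous fun p : ℝ × Cn n => Real.log (NN ε p.2) := by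
        apply Continuous.log
        · unfold NN
          fun_prop
        · intro p
          exact (NN_pos hε p.2).ne'
      fun_prop
    have hfc : ContinuousOn (fun p : ℝ × Cn n => u p.1 p.2 - W n ε 1 p.1 p.2)
        (Icc s t₁ ×ˢ closedBall (0 : Cn n) 1) :=
      (hcont.mono (Set.prod_mono hsub subset_rfl)).sub hWc.continuousOn
    obtain ⟨⟨t, x⟩, ⟨ht, hx⟩, hmax⟩ := hKc.exists_isMaxOn
      ⟨(s, 0), ⟨⟨le_rfl, hs3.le⟩, mem_closedBall_self zero_le_one⟩⟩ hfc
    simp only at ht hx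
    have hm : ∀ q ∈ Icc s t₁ ×ˢ closedBall (0 : Cn n) 1,
        u q.1 q.2 - W n ε 1 q.1 q.2 ≤ u t x - W n ε 1 t x := fun q hq => hmax hq
    clear hmax hfc hWc
    intro p hp
    refine (hm p hp).trans ?_
    by_contra hcon
    push Not at hcon
    have htT' := hsub ht
    -- not at the initial time
    have hts : s < t := by
      rcases eq_or_lt_of_le ht.1 with h | h
      · exfalso
        rw [← h] at hcon
        have h1 := hs1 x hx
        have h2 := hψlow x
        have h3 := hψup x hx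
        have h4 := hκ s ⟨le_rfl, hs3.le⟩
        unfold W at hcon
        nlinarith
      · exact h
    -- not on the boundary
    have hxb : x ∈ ball (0 : Cn n) 1 := by
      by_contra hxb
      have hxs : ‖x‖ = 1 := by
        rw [mem_closedBall_zero_iff] at hx
        rw [mem_ball_zero_iff] at hxb
        push Not at hxb
        exact le_antisymm hx hxb
      have h1 : u t x = 0 := hbd t htT' x (by rw [mem_sphere_zero_iff_norm]; exact hxs)
      rw [h1] at hcon
      unfold W at hcon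
      have h2 : 0 ≤ Real.log (NN ε x) := by
        apply Real.log_nonneg
        unfold NN
        rw [hxs]
        nlinarith [sq_nonneg ε]
      have h4 := hκ t ht
      nlinarith
    obtain ⟨hR, hballsub⟩ := inner_ball hxb
    -- the time derivative
    have hdiff : DifferentiableAt ℝ (fun r => u r x) t := by
      have hopen : IsOpen (Ioo 0 T ×ˢ ball (0 : Cn n) 1) := isOpen_Ioo.prod isOpen_ball
      have hmem : ((t, x) : ℝ × Cn n) ∈ Ioo 0 T ×ˢ ball (0 : Cn n) 1 := Set.mk_mem_prod htT' hxb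
      have h1 : DifferentiableAt ℝ (fun p : ℝ × Cn n => u p.1 p.2) (t, x) :=
        ContDiffAt.differentiableAt (hsm.contDiffAt (hopen.mem_nhds hmem)) two_ne_zero
      have h2 : DifferentiableAt ℝ (fun r : ℝ => ((r, x) : ℝ × Cn n)) t := by fun_prop
      exact DifferentiableAt.comp t h1 h2
    have hWd : HasDerivAt (fun r => W n ε 1 r x) (-(2 * n) * (1 / 2 * Real.log (NN ε x))) t := by
      unfold W
      have h1 : HasDerivAt (fun r : ℝ => 1 - 2 * (n : ℝ) * r) (-(2 * n)) t := by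
        have := ((hasDerivAt_id t).const_mul (2 * (n : ℝ))).const_sub 1
        simpa using this
      exact (h1.mul_const _).add_const _
    have hgd : HasDerivAt (fun r => u r x - W n ε 1 r x)
        (deriv (fun r => u r x) t - -(2 * n) * (1 / 2 * Real.log (NN ε x))) t :=
      hdiff.hasDerivAt.sub hWd
    have hgm : ∀ r ∈ Icc s t, (fun r => u r x - W n ε 1 r x) r ≤
        (fun r => u r x - W n ε 1 r x) t := fun r hr =>
      hm (r, x) ⟨⟨hr.1, hr.2.trans ht.2⟩, hx⟩
    have htime := deriv_nonneg_of_left hts hgd hgm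
    rw [hflow t htT' x hxb] at htime
    -- the Levi forms
    have hus : ContDiffOn ℝ 2 (u t) (ball x (1 - ‖x‖)) := (hslice_s t htT').mono hballsub
    have hWs : ContDiffOn ℝ 2 (W n ε 1 t) (ball x (1 - ‖x‖)) :=
      ((W_smooth hε 1 t).of_le ss_le).contDiffOn
    have hloc : IsLocalMax (fun y => u t y - W n ε 1 t y) x := by
      filter_upwards [isOpen_ball.mem_nhds hxb] with y hy
      exact hm (t, y) ⟨ht, ball_subset_closedBall hy⟩
    have hle : ∀ ζ, levi (u t) x ζ ≤ levi (W n ε 1 t) x ζ := by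
      intro ζ
      have h1 := levi_nonpos_loc hR (hus.sub hWs) hloc ζ
      rw [levi_sub_loc hR hus hWs] at h1
      linarith
    obtain ⟨hκ1, hκ2⟩ := hκ t ht
    have hdet := log_det_le hR hus hε (by linarith) (hpos t htT' x hxb) hle
    -- contradiction
    have hN := NN_pos hε x
    have h1 : Real.log ((1 - 2 * n * t) / (2 * NN ε x)) =
        Real.log ((1 - 2 * n * t) / 2) - Real.log (NN ε x) := by
      rw [← Real.log_div (by linarith) hN.ne']
      congr 1
      field_simp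
    have h2 : Real.log ((1 - 2 * n * t) / 2) < 0 := Real.log_neg (by linarith) (by linarith)
    have h3 : Real.log (ε ^ 2 / NN ε x) ≤ 0 := by
      apply Real.log_nonpos (by positivity)
      rw [div_le_one hN]
      unfold NN
      nlinarith [sq_nonneg ‖x‖]
    rw [h1] at hdet
    nlinarith
  have hfin := key (t₁, 0) ⟨⟨hs3.le, le_rfl⟩, mem_closedBall_self zero_le_one⟩
  simp only at hfin
  unfold W NN at hfin
  rw [norm_zero] at hfin
  have h1 : Real.log ((0 : ℝ) ^ 2 + ε ^ 2) = 2 * Real.log ε := by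
    rw [zero_pow two_ne_zero, zero_add, Real.log_pow]
    push_cast
    ring
  rw [h1] at hfin
  have h2 : 1 / 2 * (2 * Real.log ε) = Real.log ε := by ring
  rw [h2] at hfin
  linarith

end Q74.MAF
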